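import Pool.Agent.Helper74_RL.Stmts

/-!
# INB: short curves over a ball
-/

noncomputable section

open scoped ContDiff Topology ENNReal RealInnerProductSpace BoundedContinuousFunction
set_option maxSynthPendingDepth 3
open Set Metric

namespace Pool.Agent.RLim.H98

open Pool.Agent.RLim Pool.Agent.RF

variable {D : MetricData} {j : ℕ}

theorem dist_fst_le (x y : Bl D j) : ‖x.1.1 - y.1.1‖ ≤ dist x y := by
  rw [← dist_eq_norm]
  exact le_max_left _ _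

theorem dist_snd_le (x y : Bl D j) (k : Fin j) : ‖x.1.2 k - y.1.2 k‖ ≤ dist x y := by
  rw [← dist_eq_norm]
  exact (dist_le_pi_dist x.1.2 y.1.2 k).trans (le_max_right _ _)

theorem psi1_fst (k : Fin j) (i : Bool) (q : E4) :
    (psi1 D j k i q).1.1 - D.P k = D.w k • Phi0 i q := by
  simp [psi1, cm]

theorem psi1_snd (k : Fin j) (i : Bool) (q : E4) :
    (psi1 D j k i q).1.2 k = D.w k • sg i q := by
  simp [psi1]

/-- lift of a point over a ball to a chart -/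
theorem lift_ball (hPsi : PsiStmt) (k : Fin j) (i : Bool) (p : Bl D j)
    (hp : ‖p.1.1 - D.P k‖ ≤ D.w k) (q : E4) (hq : D.w k • sg i q = p.1.2 k) :
    ∃ q' : E4, q' 2 = q 2 ∧ q' 3 = q 3 ∧ psi1 D j k i q' = p ∧ q' 0 ^ 2 + q' 1 ^ 2 ≤ 1 := by
  have hw := D.w_pos k
  obtain ⟨q', -, h2, h3, h4⟩ := (hPsi D j).2.2.2.1 p k i q hq (by linarith)
  refine ⟨q', h2, h3, h4, ?_⟩
  have h5 : ‖D.w k • Phi0 i q'‖ ≤ D.w k := by
    rw [← psi1_fst k i q', h4]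
    exact hp
  rw [norm_smul, Real.norm_of_nonneg hw.le] at h5
  have h6 : ‖Phi0 i q'‖ ≤ 1 := by
    by_contra hcon
    push Not at hcon
    nlinarith
  have h7 : ‖Phi0 i q'‖ ^ 2 ≤ 1 := pow_le_one₀ (norm_nonneg _) h6
  rw [norm_Phi0] at h7
  nlinarith [sq_nonneg (q' 0), sq_nonneg (q' 1), sq_nonneg (q' 2), sq_nonneg (q' 3),
    mul_nonneg (add_nonneg (sq_nonneg (q' 0)) (sq_nonneg (q' 1)))
      (add_nonneg (sq_nonneg (q' 2)) (sq_nonneg (q' 3)))]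

/-- the square of a convex combination -/
theorem conv_sq (a b t : ℝ) (ht : 0 ≤ t) (ht' : t ≤ 1) :
    (a + t * (b - a)) ^ 2 ≤ (1 - t) * a ^ 2 + t * b ^ 2 := by
  nlinarith [mul_nonneg (mul_nonneg ht (sub_nonneg.2 ht')) (sq_nonneg (a - b))]

/-- straight segments in the charts -/
theorem seg_chart (hG1b : G1bStmt) (hSup : SupStmt) (hLen : LenStmt) (k : Fin j) (i : Bool)
    (q q' : E4) (ha : q 0 ^ 2 + q 1 ^ 2 ≤ 1) (hb : q 2 ^ 2 + q 3 ^ 2 ≤ 4)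
    (ha' : q' 0 ^ 2 + q' 1 ^ 2 ≤ 1) (hb' : q' 2 ^ 2 + q' 3 ^ 2 ≤ 4) :
    ∃ L, IsLen (atl D j) (psi1 D j k i q) (psi1 D j k i q') L ∧
      L ≤ 5 * (√|D.C0| + 1) * D.w k * ‖q' - q‖ := by
  have hw := D.w_pos k
  set κ : ℝ := √|D.C0| + 1 with hκ
  have hκ1 : 1 ≤ κ := by
    have := Real.sqrt_nonneg |D.C0|
    linarith
  have hκC : D.C0 ≤ κ ^ 2 := by
    have h1 : √|D.C0| ^ 2 = |D.C0| := Real.sq_sqrt (abs_nonneg _)
    have h2 := le_abs_self D.C0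
    have h3 := Real.sqrt_nonneg |D.C0|
    rw [hκ]
    nlinarith
  have hseg : ∀ x ∈ segment ℝ q q', x 0 ^ 2 + x 1 ^ 2 ≤ 1 ∧ x 2 ^ 2 + x 3 ^ 2 ≤ 4 := by
    intro x hx
    rw [segment_eq_image'] at hx
    obtain ⟨t, ⟨ht, ht'⟩, rfl⟩ := hx
    have e : ∀ m : Fin 4, (q + t • (q' - q)) m = q m + t * (q' m - q m) := by
      intro m
      simp
    simp only [e]
    have h0 := conv_sq (q 0) (q' 0) t ht ht'
    have h1 := conv_sq (q 1) (q' 1) t ht ht'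
    have h2 := conv_sq (q 2) (q' 2) t ht ht'
    have h3 := conv_sq (q 3) (q' 3) t ht ht'
    constructor <;> nlinarith
  have hU : ∀ x : E4, x 0 ^ 2 + x 1 ^ 2 ≤ 1 → x 2 ^ 2 + x 3 ^ 2 ≤ 4 → x ∈ U1 := by
    intro x h1 h2
    change (x 0 ^ 2 + x 1 ^ 2) * (1 + x 2 ^ 2 + x 3 ^ 2) < 64
    have h3 : (x 0 ^ 2 + x 1 ^ 2) * (1 + x 2 ^ 2 + x 3 ^ 2) ≤ 1 * 5 :=
      mul_le_mul h1 (by linarith) (by positivity) (by norm_num)
    linarith
  obtain ⟨L, hL, hLB⟩ := hSup (Bl D j) U1 (psi1 D j k i) (G1 D j k i) q q'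
    (5 * κ * D.w k * ‖q' - q‖) (by positivity)
    (fun x hx => hU x (hseg x hx).1 (hseg x hx).2) (fun x hx => by
      obtain ⟨h1, h2⟩ := hseg x hx
      have h3 := (hG1b D j k i x (hU x h1 h2) (q' - q)).2.2.1 h1 h2
      refine h3.trans ?_
      have h4 : 0 ≤ (D.w k) ^ 2 * ‖q' - q‖ ^ 2 := by positivity
      have h5 := mul_le_mul_of_nonneg_right hκC h4
      nlinarith)
  exact ⟨L, (hLen (Bl D j) (atl D j)).2.2.2.1 U1 _ _ (Or.inr ⟨k, i, rfl⟩) _ _ L hL, hLB⟩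

/-- the base point over a centre, in both charts -/
theorem psi1_base (k : Fin j) : psi1 D j k false (WithLp.toLp 2 ![0, 0, 1, 0]) =
    psi1 D j k true (WithLp.toLp 2 ![0, 0, 1, 0]) := by
  have h1 : Phi0 false (WithLp.toLp 2 ![0, 0, 1, 0]) = 0 := by
    rw [Phi0_eq_zero]; simp
  have h2 : Phi0 true (WithLp.toLp 2 ![0, 0, 1, 0]) = 0 := by
    rw [Phi0_eq_zero]; simp
  have h3 : sg false (WithLp.toLp 2 ![0, 0, 1, 0]) = sg true (WithLp.toLp 2 ![0, 0, 1, 0]) := by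
    ext m
    fin_cases m <;> simp [sg]
  apply Subtype.ext
  simp only [psi1, cm, h1, h2, h3]

/-- distance in the chart -/
theorem chart_dist (hSgl : SglStmt) (k : Fin j) (i : Bool) (q q' : E4)
    (hb : q 2 ^ 2 + q 3 ^ 2 ≤ 4) (hb' : q' 2 ^ 2 + q' 3 ^ 2 ≤ 4) :
    D.w k * ‖q' - q‖ ≤ 3 * dist (psi1 D j k i q) (psi1 D j k i q') := by
  have hw := D.w_pos k
  set x := psi1 D j k i q with hx
  set y := psi1 D j k i q' with hy
  have h1 : D.w k * ‖Phi0 i q - Phi0 i q'‖ ≤ dist x y := by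
    have h2 : ‖D.w k • (Phi0 i q - Phi0 i q')‖ ≤ dist x y := by
      have h3 : D.w k • (Phi0 i q - Phi0 i q') = x.1.1 - y.1.1 := by
        rw [smul_sub, ← psi1_fst k i q, ← psi1_fst k i q']
        abel
      rw [h3]
      exact dist_fst_le x y
    rwa [norm_smul, Real.norm_of_nonneg hw.le] at h2
  have h2 : D.w k * ‖sg i q - sg i q'‖ ≤ dist x y := by
    have h2 : ‖D.w k • (sg i q - sg i q')‖ ≤ dist x y := by
      have h3 : D.w k • (sg i q - sg i q') = x.1.2 k - y.1.2 k := by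
        rw [smul_sub, ← psi1_snd k i q, ← psi1_snd k i q']
      rw [h3]
      exact dist_snd_le x y k
    rwa [norm_smul, Real.norm_of_nonneg hw.le] at h2
  have h3 : (q 0 - q' 0) ^ 2 + (q 1 - q' 1) ^ 2 ≤ ‖Phi0 i q - Phi0 i q'‖ ^ 2 := by
    rw [norm_sq4]
    cases i
    · simp [Phi0]
      nlinarith [sq_nonneg (q 0 * q 2 - q 1 * q 3 - (q' 0 * q' 2 - q' 1 * q' 3)),
        sq_nonneg (q 0 * q 3 + q 1 * q 2 - (q' 0 * q' 3 + q' 1 * q' 2))]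
    · simp [Phi0]
      nlinarith [sq_nonneg (q 0 * q 2 - q 1 * q 3 - (q' 0 * q' 2 - q' 1 * q' 3)),
        sq_nonneg (q 0 * q 3 + q 1 * q 2 - (q' 0 * q' 3 + q' 1 * q' 2))]
  have h4 := hSgl.2.2.1 i q q' hb hb'
  have h5 : ‖q' - q‖ ^ 2 ≤ ‖Phi0 i q - Phi0 i q'‖ ^ 2 + 25 / 4 * ‖sg i q - sg i q'‖ ^ 2 := by
    rw [norm_sq4]
    simp only [PiLp.sub_apply]
    nlinarith
  have h6 : (D.w k * ‖q' - q‖) ^ 2 ≤ (3 * dist x y) ^ 2 := by
    have e1 : (D.w k * ‖q' - q‖) ^ 2 = (D.w k) ^ 2 * ‖q' - q‖ ^ 2 := by ring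
    have h7 : (D.w k) ^ 2 * ‖q' - q‖ ^ 2 ≤ (D.w k) ^ 2 * (‖Phi0 i q - Phi0 i q'‖ ^ 2 +
        25 / 4 * ‖sg i q - sg i q'‖ ^ 2) := mul_le_mul_of_nonneg_left h5 (by positivity)
    have h8 : (D.w k * ‖Phi0 i q - Phi0 i q'‖) ^ 2 ≤ dist x y ^ 2 :=
      pow_le_pow_left₀ (by positivity) h1 2
    have h9 : (D.w k * ‖sg i q - sg i q'‖) ^ 2 ≤ dist x y ^ 2 :=
      pow_le_pow_left₀ (by positivity) h2 2
    rw [e1]
    nlinarith [sq_nonneg (dist x y)]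
  exact (pow_le_pow_iff_left₀ (by positivity) (by positivity) two_ne_zero).1 h6

/-- rough bound -/
theorem chart_small (q q' : E4) (ha : q 0 ^ 2 + q 1 ^ 2 ≤ 1) (hb : q 2 ^ 2 + q 3 ^ 2 ≤ 4)
    (ha' : q' 0 ^ 2 + q' 1 ^ 2 ≤ 1) (hb' : q' 2 ^ 2 + q' 3 ^ 2 ≤ 4) : ‖q' - q‖ ≤ 5 := by
  have h : ‖q' - q‖ ^ 2 ≤ 5 ^ 2 := by
    rw [norm_sq4]
    simp only [PiLp.sub_apply]
    nlinarith [sq_nonneg (q 0 + q' 0), sq_nonneg (q 1 + q' 1), sq_nonneg (q 2 + q' 2),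
      sq_nonneg (q 3 + q' 3)]
  exact (pow_le_pow_iff_left₀ (norm_nonneg _) (by norm_num) two_ne_zero).1 h

theorem inb (hPsi : PsiStmt) (hSgl : SglStmt) (hG1b : G1bStmt) (hSup : SupStmt)
    (hLen : LenStmt) : InbStmt := by
  intro D
  set κ : ℝ := √|D.C0| + 1 with hκ
  have hκ1 : 1 ≤ κ := by
    have := Real.sqrt_nonneg |D.C0|
    linarith
  refine ⟨100 * κ, by positivity, fun j k x y hx hy => ?_⟩
  have hw := D.w_pos k
  have hdir : ∀ p : Bl D j, ∃ v : E3, ‖v‖ = 1 ∧ p.1.2 k = D.w k • v := by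
    intro p
    refine ⟨(D.w k)⁻¹ • p.1.2 k, ?_, ?_⟩
    · rw [norm_smul, norm_inv, Real.norm_of_nonneg hw.le, (p.2 k).1, inv_mul_cancel₀ hw.ne']
    · rw [smul_smul, mul_inv_cancel₀ hw.ne', one_smul]
  obtain ⟨vx, hvx, hvx'⟩ := hdir x
  obtain ⟨vy, hvy, hvy'⟩ := hdir y
  obtain ⟨i, q, hq, hqv⟩ := hSgl.2.2.2.1 vx hvx
  obtain ⟨qx, hx2, hx3, hxp, hxa⟩ := lift_ball hPsi k i x hx q (by rw [hqv, hvx'])
  have hxb : qx 2 ^ 2 + qx 3 ^ 2 ≤ 1 := by rw [hx2, hx3]; exact hq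
  by_cases hsame : ∃ q' : E4, q' 2 ^ 2 + q' 3 ^ 2 ≤ 4 ∧ sg i q' = vy
  · obtain ⟨q', hq', hqv'⟩ := hsame
    obtain ⟨qy, hy2, hy3, hyp, hya⟩ := lift_ball hPsi k i y hy q' (by rw [hqv', hvy'])
    have hyb : qy 2 ^ 2 + qy 3 ^ 2 ≤ 4 := by rw [hy2, hy3]; exact hq'
    obtain ⟨L, hL, hLB⟩ := seg_chart hG1b hSup hLen k i qx qy hxa (by linarith) hya hyb
    rw [hxp, hyp] at hL
    refine ⟨L, hL, hLB.trans ?_⟩
    have h1 := chart_dist (D := D) (j := j) hSgl k i qx qy (by linarith) hyb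
    rw [hxp, hyp] at h1
    have h2 : 5 * κ * (D.w k * ‖qy - qx‖) ≤ 5 * κ * (3 * dist x y) :=
      mul_le_mul_of_nonneg_left h1 (by positivity)
    have h3 : 0 ≤ κ * dist x y := by positivity
    calc 5 * (√|D.C0| + 1) * D.w k * ‖qy - qx‖ = 5 * κ * (D.w k * ‖qy - qx‖) := by rw [hκ]; ring
      _ ≤ 5 * κ * (3 * dist x y) := h2
      _ ≤ 100 * κ * dist x y := by nlinarith
  · obtain ⟨hfar, q', hq', hqv'⟩ := hSgl.2.2.2.2 i q vy hq hvy hsame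
    obtain ⟨qy, hy2, hy3, hyp, hya⟩ := lift_ball hPsi k (!i) y hy q' (by rw [hqv', hvy'])
    have hyb : qy 2 ^ 2 + qy 3 ^ 2 ≤ 1 := by rw [hy2, hy3]; exact hq'
    set e : E4 := WithLp.toLp 2 ![0, 0, 1, 0] with he
    have hea : e 0 ^ 2 + e 1 ^ 2 ≤ 1 := by simp [he]
    have heb : e 2 ^ 2 + e 3 ^ 2 ≤ 4 := by simp [he]
    obtain ⟨L, hL, hLB⟩ := seg_chart hG1b hSup hLen k i qx e hxa (by linarith) hea heb
    obtain ⟨L', hL', hLB'⟩ := seg_chart hG1b hSup hLen k (!i) e qy hea heb hya (by linarith)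
    have hez : psi1 D j k i e = psi1 D j k (!i) e := by
      cases i
      · exact psi1_base k
      · exact (psi1_base k).symm
    rw [hxp] at hL
    rw [hyp, ← hez] at hL'
    refine ⟨L + L', (hLen (Bl D j) (atl D j)).1 _ _ _ _ _ hL hL', ?_⟩
    have h1 := chart_small qx e hxa (by linarith) hea heb
    have h2 := chart_small e qy hea heb hya (by linarith)
    have h3 : D.w k / 2 ≤ dist x y := by
      have h4 := dist_snd_le x y k
      rw [hvx', hvy', ← smul_sub, norm_smul, Real.norm_of_nonneg hw.le] at h4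
      rw [hqv] at hfar
      nlinarith
    have h4 : 5 * κ * D.w k * ‖e - qx‖ ≤ 5 * κ * D.w k * 5 :=
      mul_le_mul_of_nonneg_left h1 (by positivity)
    have h5 : 5 * κ * D.w k * ‖qy - e‖ ≤ 5 * κ * D.w k * 5 :=
      mul_le_mul_of_nonneg_left h2 (by positivity)
    have h6 : κ * D.w k ≤ κ * (2 * dist x y) := mul_le_mul_of_nonneg_left (by linarith)
      (by positivity)
    rw [← hκ] at hLB hLB'
    nlinarith

end Pool.Agent.RLim.H98
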