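import Pool.Agent.Helper98_RLB.INB

/-!
# OUT: short curves between points outside the balls
-/

noncomputable section

open scoped ContDiff Topology ENNReal RealInnerProductSpace BoundedContinuousFunction
set_option maxSynthPendingDepth 3
open Set Metric

namespace Pool.Agent.RLim.H98

open Pool.Agent.RLim Pool.Agent.RF

variable {D : MetricData} {j : ℕ}

/-- the distance in the blow-up for points outside the balls -/
theorem dist_psi0_le (hHpl : HplStmt) (X Y : E4) (hX : ∀ k < j, D.w k ≤ ‖X - D.P k‖)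
    (hY : ∀ k < j, D.w k ≤ ‖Y - D.P k‖) : dist (psi0 D j X) (psi0 D j Y) ≤ 4 * ‖X - Y‖ := by
  have h0 : 0 ≤ ‖X - Y‖ := norm_nonneg _
  refine max_le ?_ ?_
  · change dist X Y ≤ _
    rw [dist_eq_norm]
    linarith
  · rw [dist_pi_le_iff (by positivity)]
    intro l
    change dist (D.w l • hd (X - D.P l)) (D.w l • hd (Y - D.P l)) ≤ _
    have hw := D.w_pos l
    have hXl := hX l l.2
    have hYl := hY l l.2
    have hX0 : X - D.P l ≠ 0 := norm_pos_iff.1 (hw.trans_le hXl)
    have hY0 : Y - D.P l ≠ 0 := norm_pos_iff.1 (hw.trans_le hYl)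
    rw [dist_eq_norm, ← smul_sub, norm_smul, Real.norm_of_nonneg hw.le, hd_of_ne hX0, hd_of_ne hY0]
    have h1 := hHpl.2.1 _ _ hX0 hY0
    have h2 : X - D.P l - (Y - D.P l) = X - Y := by abel
    rw [h2, le_div_iff₀ (norm_pos_iff.2 hX0)] at h1
    have h3 : ‖hopf (X - D.P l) - hopf (Y - D.P l)‖ * D.w l ≤
        ‖hopf (X - D.P l) - hopf (Y - D.P l)‖ * ‖X - D.P l‖ :=
      mul_le_mul_of_nonneg_left hXl (norm_nonneg _)
    linarith

/-- a point on the sphere of a ball is outside the other balls -/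
theorem sphere_out (k : ℕ) (Z : E4) (hZ : ‖Z - D.P k‖ = D.w k) (l : ℕ) :
    D.w l ≤ ‖Z - D.P l‖ := by
  by_cases hlk : l = k
  · subst hlk
    exact hZ.ge
  · have h1 := D.disj k l (Ne.symm hlk)
    have h2 := D.w_le k
    have h3 := D.w_le l
    have h4 := D.w_pos k
    have h5 := D.w_pos l
    have h6 : dist (D.P k) (D.P l) ≤ ‖Z - D.P k‖ + ‖Z - D.P l‖ := by
      rw [← dist_eq_norm, ← dist_eq_norm, dist_comm Z (D.P k)]
      exact dist_triangle _ _ _
    linarith

open Classical in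
/-- the balls which a segment meets -/
def met (D : MetricData) (j : ℕ) (X Y : E4) : Finset (Fin j) :=
  Finset.univ.filter fun k => ∃ z ∈ segment ℝ X Y, ‖z - D.P k‖ < D.w k

theorem mem_met {X Y : E4} {k : Fin j} :
    k ∈ met D j X Y ↔ ∃ z ∈ segment ℝ X Y, ‖z - D.P k‖ < D.w k := by
  simp [met]

theorem out (hInb : InbStmt) (hSup : SupStmt) (hLen : LenStmt) (hHpl : HplStmt) : OutStmt := by
  intro D
  obtain ⟨CI, hCI, hI⟩ := hInb D
  set κ : ℝ := √|D.C0| + 1 with hκ
  have hκ1 : 1 ≤ κ := by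
    have := Real.sqrt_nonneg |D.C0|
    linarith
  have hκC : D.C0 ≤ κ ^ 2 := by
    have h1 : √|D.C0| ^ 2 = |D.C0| := Real.sq_sqrt (abs_nonneg _)
    have h2 := le_abs_self D.C0
    have h3 := Real.sqrt_nonneg |D.C0|
    rw [hκ]
    nlinarith
  set C : ℝ := κ + 4 * CI with hC
  have hC0 : 0 < C := by positivity
  refine ⟨C, hC0, fun j => ?_⟩
  have key : ∀ (n : ℕ) (X Y : E4), (met D j X Y).card ≤ n → (∀ k < j, D.w k ≤ ‖X - D.P k‖) →
      (∀ k < j, D.w k ≤ ‖Y - D.P k‖) →
      ∃ L, IsLen (atl D j) (psi0 D j X) (psi0 D j Y) L ∧ L ≤ C * ‖X - Y‖ := by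
    intro n
    induction n with
    | zero =>
      intro X Y hn hX hY
      have hout : ∀ x ∈ segment ℝ X Y, ∀ k < j, D.w k ≤ ‖x - D.P k‖ := by
        intro x hx k hk
        by_contra hcon
        push Not at hcon
        have h1 : (⟨k, hk⟩ : Fin j) ∈ met D j X Y := mem_met.2 ⟨x, hx, hcon⟩
        have h2 := Finset.card_eq_zero.1 (Nat.le_zero.1 hn)
        rw [h2] at h1
        simp at h1
      obtain ⟨L, hL, hLB⟩ := hSup (Bl D j) (U0 D j) (psi0 D j) (D.g j) X Y (κ * ‖Y - X‖)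
        (by positivity) (fun x hx k hk h => by
          have h1 := hout x hx k hk
          rw [h, sub_self, norm_zero] at h1
          exact absurd (D.w_pos k) (not_lt.2 h1)) (fun x hx => by
          refine (D.up j x (hout x hx) _).trans ?_
          rw [mul_pow]
          exact mul_le_mul_of_nonneg_right hκC (by positivity))
      refine ⟨L, (hLen (Bl D j) (atl D j)).2.2.2.1 (U0 D j) _ _ (Or.inl rfl) _ _ L hL,
        hLB.trans ?_⟩
      rw [norm_sub_rev Y X]
      exact mul_le_mul_of_nonneg_right (by rw [hC]; linarith) (norm_nonneg _)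
    | succ n ih =>
      intro X Y hn hX hY
      by_cases hne : (met D j X Y).Nonempty
      swap
      · rw [Finset.not_nonempty_iff_eq_empty] at hne
        exact ih X Y (by rw [hne]; simp) hX hY
      obtain ⟨k, hk⟩ := hne
      obtain ⟨z, hz, hzk⟩ := mem_met.1 hk
      rw [segment_eq_image_lineMap] at hz
      obtain ⟨t, ⟨ht0, ht1⟩, rfl⟩ := hz
      have hw := D.w_pos k
      set ℓ := AffineMap.lineMap (k := ℝ) X Y with hℓ
      set f : ℝ → ℝ := fun t => ‖ℓ t - D.P k‖ with hf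
      have hfc : Continuous f := by
        have h1 : Continuous ℓ := AffineMap.lineMap_continuous
        exact (h1.sub continuous_const).norm
      have hℓ0 : ℓ 0 = X := AffineMap.lineMap_apply_zero _ _
      have hℓ1 : ℓ 1 = Y := AffineMap.lineMap_apply_one _ _
      have hf0 : D.w k ≤ f 0 := by
        simp only [hf, hℓ0]
        exact hX k k.2
      have hf1 : D.w k ≤ f 1 := by
        simp only [hf, hℓ1]
        exact hY k k.2
      obtain ⟨t1, ⟨ht1a, ht1b⟩, hft1⟩ := intermediate_value_Icc' ht0 hfc.continuousOn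
        ⟨(le_of_lt hzk : f t ≤ D.w k), hf0⟩
      obtain ⟨t2, ⟨ht2a, ht2b⟩, hft2⟩ := intermediate_value_Icc ht1 hfc.continuousOn
        ⟨(le_of_lt hzk : f t ≤ D.w k), hf1⟩
      -- convexity
      have hord : OrdConnected {t : ℝ | f t < D.w k} := by
        have h1 : Convex ℝ (ℓ ⁻¹' Metric.ball (D.P k) (D.w k)) :=
          (convex_ball _ _).affine_preimage ℓ
        have h2 : ℓ ⁻¹' Metric.ball (D.P k) (D.w k) = {t : ℝ | f t < D.w k} := by
          ext t
          simp [hf, dist_eq_norm]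
        rw [h2] at h1
        exact h1.ordConnected
      have hZ1 : ∀ l, D.w l ≤ ‖ℓ t1 - D.P l‖ := sphere_out k (ℓ t1) hft1
      have hZ2 : ∀ l, D.w l ≤ ‖ℓ t2 - D.P l‖ := sphere_out k (ℓ t2) hft2
      have hmem1 : ℓ t1 ∈ segment ℝ X Y := by
        rw [segment_eq_image_lineMap]
        exact ⟨t1, ⟨ht1a, by linarith⟩, rfl⟩
      have hmem2 : ℓ t2 ∈ segment ℝ X Y := by
        rw [segment_eq_image_lineMap]
        exact ⟨t2, ⟨by linarith, ht2b⟩, rfl⟩
      -- the two parts meet fewer balls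
      have hsub1 : met D j X (ℓ t1) ⊂ met D j X Y := by
        refine Finset.ssubset_iff_subset_ne.2 ⟨fun l hl => ?_, fun h => ?_⟩
        · obtain ⟨x, hx, hxl⟩ := mem_met.1 hl
          exact mem_met.2 ⟨x, (convex_segment X Y).segment_subset (left_mem_segment ℝ X Y) hmem1 hx,
            hxl⟩
        · rw [← h] at hk
          obtain ⟨x, hx, hxk⟩ := mem_met.1 hk
          rw [segment_eq_image_lineMap] at hx
          obtain ⟨a, ⟨ha0, ha1⟩, rfl⟩ := hx
          have e1 : AffineMap.lineMap (k := ℝ) X (ℓ t1) a = ℓ (a * t1) := by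
            simp only [hℓ, AffineMap.lineMap_apply, vsub_eq_sub, vadd_eq_add]
            module
          rw [e1] at hxk
          have h3 : t1 ∈ {t : ℝ | f t < D.w k} :=
            hord.out (x := a * t1) (y := t) hxk hzk ⟨by nlinarith, ht1b⟩
          exact absurd h3 (by simp only [mem_ofPred_eq, hft1, lt_irrefl, not_false_iff])
      have hsub2 : met D j (ℓ t2) Y ⊂ met D j X Y := by
        refine Finset.ssubset_iff_subset_ne.2 ⟨fun l hl => ?_, fun h => ?_⟩
        · obtain ⟨x, hx, hxl⟩ := mem_met.1 hl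
          exact mem_met.2 ⟨x, (convex_segment X Y).segment_subset hmem2 (right_mem_segment ℝ X Y) hx,
            hxl⟩
        · rw [← h] at hk
          obtain ⟨x, hx, hxk⟩ := mem_met.1 hk
          rw [segment_eq_image_lineMap] at hx
          obtain ⟨a, ⟨ha0, ha1⟩, rfl⟩ := hx
          have e1 : AffineMap.lineMap (k := ℝ) (ℓ t2) Y a = ℓ (t2 + a * (1 - t2)) := by
            simp only [hℓ, AffineMap.lineMap_apply, vsub_eq_sub, vadd_eq_add]
            module
          rw [e1] at hxk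
          have h3 : t2 ∈ {t : ℝ | f t < D.w k} :=
            hord.out (x := t) (y := t2 + a * (1 - t2)) hzk hxk ⟨ht2a, by nlinarith⟩
          exact absurd h3 (by simp only [mem_ofPred_eq, hft2, lt_irrefl, not_false_iff])
      obtain ⟨L1, hL1, hL1B⟩ := ih X (ℓ t1)
        (by have := Finset.card_lt_card hsub1; omega) hX (fun l _ => hZ1 l)
      obtain ⟨L3, hL3, hL3B⟩ := ih (ℓ t2) Y
        (by have := Finset.card_lt_card hsub2; omega) (fun l _ => hZ2 l) hY
      obtain ⟨L2, hL2, hL2B⟩ := hI j k (psi0 D j (ℓ t1)) (psi0 D j (ℓ t2))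
        (le_of_eq hft1) (le_of_eq hft2)
      have hd2 := dist_psi0_le (D := D) (j := j) hHpl (ℓ t1) (ℓ t2) (fun l _ => hZ1 l)
        (fun l _ => hZ2 l)
      have hl := hLen (Bl D j) (atl D j)
      refine ⟨L1 + (L2 + L3), hl.1 _ _ _ _ _ hL1 (hl.1 _ _ _ _ _ hL2 hL3), ?_⟩
      have n1 : ‖X - ℓ t1‖ = t1 * ‖X - Y‖ := by
        rw [← dist_eq_norm, ← dist_eq_norm, hℓ, dist_left_lineMap, Real.norm_of_nonneg ht1a]
      have n2 : ‖ℓ t1 - ℓ t2‖ = (t2 - t1) * ‖X - Y‖ := by
        rw [← dist_eq_norm, ← dist_eq_norm, hℓ, dist_lineMap_lineMap, Real.dist_eq, abs_sub_comm,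
          abs_of_nonneg (by linarith)]
      have n3 : ‖ℓ t2 - Y‖ = (1 - t2) * ‖X - Y‖ := by
        rw [← dist_eq_norm, ← dist_eq_norm, hℓ, dist_lineMap_right,
          Real.norm_of_nonneg (by linarith)]
      rw [n1] at hL1B
      rw [n3] at hL3B
      rw [n2] at hd2
      have hL2B' : L2 ≤ C * ((t2 - t1) * ‖X - Y‖) := by
        have h1 : CI * dist (psi0 D j (ℓ t1)) (psi0 D j (ℓ t2)) ≤
            CI * (4 * ((t2 - t1) * ‖X - Y‖)) := mul_le_mul_of_nonneg_left hd2 hCI.le
        have h2 : 0 ≤ κ * ((t2 - t1) * ‖X - Y‖) :=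
          mul_nonneg (by positivity) (mul_nonneg (by linarith) (norm_nonneg _))
        rw [hC]
        linarith
      calc L1 + (L2 + L3) ≤ C * (t1 * ‖X - Y‖) + (C * ((t2 - t1) * ‖X - Y‖) +
            C * ((1 - t2) * ‖X - Y‖)) := by linarith
        _ = C * ‖X - Y‖ := by ring
  intro X Y hX hY
  exact key _ X Y le_rfl hX hY

end Pool.Agent.RLim.H98
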